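import Pool.Agent.H25.VT.Spec

set_option autoImplicit false

namespace Pool.Agent.Helper6.VT.CONJ

open Pool.Agent.H25.VT

lemma est {a s t : ℝ} (ha : 1 < a) (hs : a ≤ s) (ht : a ≤ t) :
    |s / (s - 1) - t / (t - 1)| ≤ |s - t| / (a - 1) ^ 2 := by
  have h1 : 0 < a - 1 := by linarith
  have h2 : 0 < s - 1 := by linarith
  have h3 : 0 < t - 1 := by linarith
  have h4 : s / (s - 1) - t / (t - 1) = -(s - t) / ((s - 1) * (t - 1)) := by
    field_simp
    ring
  rw [h4, abs_div, abs_neg, abs_of_pos (mul_pos h2 h3)]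
  have h5 : (a - 1) ^ 2 ≤ (s - 1) * (t - 1) := by
    rw [pow_two]
    exact mul_le_mul (by linarith) (by linarith) h1.le h2.le
  exact div_le_div_of_nonneg_left (abs_nonneg _) (by positivity) h5

theorem main : S_CONJ := by
  intro n P a b hP ha hab
  obtain ⟨⟨hcont, c, hc⟩, c', Pinf, hc'⟩ := hP
  have h1 : 0 < (a - 1) ^ 2 := by
    have : 0 < a - 1 := by linarith
    positivity
  refine ⟨⟨?_, c / (a - 1) ^ 2, ?_⟩, c' / (a - 1) ^ 2, max a Pinf / (max a Pinf - 1), ?_⟩
  · refine hcont.div (hcont.sub continuous_const) ?_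
    intro x
    have := (hab x).1
    linarith
  · intro x y
    refine (est ha (hab x).1 (hab y).1).trans ?_
    rw [div_div, mul_comm ((a - 1) ^ 2), ← div_div]
    exact div_le_div_of_nonneg_right (hc x y) h1.le
  · intro x
    refine (est ha (hab x).1 (le_max_left a Pinf)).trans ?_
    rw [div_div, mul_comm ((a - 1) ^ 2), ← div_div]
    refine div_le_div_of_nonneg_right (le_trans ?_ (hc' x)) h1.le
    rcases le_total a Pinf with h | h
    · rw [max_eq_right h]
    · rw [max_eq_left h]
      have h2 := (hab x).1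
      rw [abs_of_nonneg (by linarith)]
      exact le_trans (by linarith) (le_abs_self _)

end Pool.Agent.Helper6.VT.CONJ
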