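import Pool.Agent.H25.VT.Spec

set_option autoImplicit false

namespace Pool.Agent.Helper6.VT.PINF

open Pool.Agent.H25.VT Filter Topology

theorem main : S_PINF := by
  intro n P a b c Pinf hn hab hc
  let e : E n := EuclideanSpace.single ⟨0, hn⟩ (1 : ℝ)
  have he : ‖e‖ = 1 := by simp [e]
  have h1 : ∀ k : ℕ, ‖(k : ℝ) • e‖ = k := by
    intro k
    rw [norm_smul, he, mul_one, Real.norm_natCast]
  have h2 : Tendsto (fun k : ℕ => c / Real.log (Real.exp 1 + (k : ℝ))) atTop (𝓝 0) := by
    refine Tendsto.const_div_atTop ?_ c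
    refine Real.tendsto_log_atTop.comp ?_
    exact tendsto_atTop_add_const_left _ _ tendsto_natCast_atTop_atTop
  have h3 : Tendsto (fun k : ℕ => P ((k : ℝ) • e)) atTop (𝓝 Pinf) := by
    rw [tendsto_iff_dist_tendsto_zero]
    refine squeeze_zero (fun _ => dist_nonneg) (fun k => ?_) h2
    rw [Real.dist_eq]
    have := hc ((k : ℝ) • e)
    rwa [h1] at this
  exact ⟨ge_of_tendsto' h3 fun k => (hab _).1, le_of_tendsto' h3 fun k => (hab _).2⟩

end Pool.Agent.Helper6.VT.PINF
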